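import Pool.Agent.N671.DA.Win
import Pool.Agent.Results.MP_c2409d_nt.ApproximationsOfRealTuples

/-! Rohrlich's conjecture with one rational parameter: the exceptional parameters are `O(X ^ ε)`. -/

set_option autoImplicit false

open Set Filter MeasureTheory
open scoped ENNReal

namespace Pool.Agent.L7h11.RO

open Pool.Agent.Results.MP_c2409d_nt.CommensurableArguments (args Identity Simple Exceptional)
open Pool.Agent.Results.MP_c2409d_nt.ApproximationsOfRealTuples (Rohrlich)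

/-- The open direction of Rohrlich's conjecture for the numbers `a_i = c_i t + x_i` and for the factors `α` which are simple
of degree `d` and height `H` over the numbers `exp (2 π i t / N)` and `p ^ (t / N)`, `p` one of the first `B` primes. -/
def Holds {r : ℕ} (c x : Fin r → ℚ) (N B d : ℕ) (H : ℝ) (t : ℚ) : Prop :=
  Rohrlich c x (fun _ => (0 : Fin 1)) N B d H (fun _ => t)

/-- the conjecture holds in this sense, with `H = q ^ A`, at every fraction `t` in `[a, b]` with exact denominator `q` -/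
def EveryNumerator {r : ℕ} (c x : Fin r → ℚ) (a b : ℝ) (N B d : ℕ) (A : ℝ) (q : ℕ) : Prop :=
  ∀ t : ℚ, t.den = q → a ≤ (t : ℝ) → (t : ℝ) ≤ b → Holds c x N B d ((q : ℝ) ^ A) t

theorem Holds.mono {r : ℕ} {c x : Fin r → ℚ} {N B d : ℕ} {H H' : ℝ} {t : ℚ} (h : Holds c x N B d H' t) (hH : H ≤ H') :
    Holds c x N B d H t := by
  intro α h1 h2
  obtain ⟨P, h3, h4, h5, h6⟩ := h2
  exact h α h1 ⟨P, h3, h4, fun s => (h5 s).trans hH, h6⟩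

theorem count {r : ℕ} (c : Fin r → ℚ) (hc : ∀ i, c i ≠ 0) (x : Fin r → ℚ) (a b : ℝ)
    (hpole : ∀ i (s : ℝ), a ≤ s → s ≤ b → ∀ k : ℕ, (c i : ℝ) * s + x i ≠ -k)
    (N B d : ℕ) (hN : 0 < N) (A ε : ℝ) (hε : 0 < ε) :
    ∃ C : ℝ, ∀ X : ℝ, 1 ≤ X →
      {t : ℚ | ((a ≤ (t : ℝ) ∧ (t : ℝ) ≤ b) ∧ ¬ Holds c x N B d ((t.den : ℝ) ^ A) t) ∧ (t.den : ℝ) ≤ X}.Finite ∧
      ({t : ℚ | ((a ≤ (t : ℝ) ∧ (t : ℝ) ≤ b) ∧ ¬ Holds c x N B d ((t.den : ℝ) ^ A) t) ∧ (t.den : ℝ) ≤ X}.ncard : ℝ) ≤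
        C * X ^ ε := by
  obtain ⟨K, hK0, hK⟩ := Pool.Agent.N84.MD.rats a b
  obtain ⟨C, T₀, H⟩ := Pool.Agent.Results.MP_c2409d_nt.CommensurableArguments.result 1 r c hc x (fun _ => 0) a b hpole
    N B d hN (max A 0) ε hε
  obtain ⟨T₁, hT₁⟩ : ∃ T₁ : ℝ, T₁ = max T₀ 1 := ⟨_, rfl⟩
  have hT₁1 : 1 ≤ T₁ := by rw [hT₁]; exact le_max_right _ _
  refine ⟨|C| * T₁ ^ ε, fun X hX => ?_⟩
  obtain ⟨T, hT⟩ : ∃ T : ℝ, T = X * T₁ := ⟨_, rfl⟩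
  have hTX : X ≤ T := by rw [hT]; nlinarith
  have hT1 : 1 ≤ T := hX.trans hTX
  have hTT : T₀ ≤ T := by
    have h1 : T₀ ≤ T₁ := by rw [hT₁]; exact le_max_left _ _
    rw [hT]
    nlinarith
  obtain ⟨Y, hY1, -⟩ := hK T hT1
  obtain ⟨h1, h2⟩ := H T hTT Y fun q hq => (hY1 q).1 hq
  have hmap : ∀ t ∈ {t : ℚ | ((a ≤ (t : ℝ) ∧ (t : ℝ) ≤ b) ∧ ¬ Holds c x N B d ((t.den : ℝ) ^ A) t) ∧ (t.den : ℝ) ≤ X},
      (fun _ : Fin 1 => t) ∈ Exceptional c x (fun _ => (0 : Fin 1)) N B d (T ^ (max A 0)) Y := by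
    rintro t ⟨⟨⟨h3, h4⟩, h5⟩, h6⟩
    have hd1 : (1 : ℝ) ≤ t.den := by exact_mod_cast t.den_pos
    have h7 : ¬ Holds c x N B d (T ^ (max A 0)) t := by
      refine fun h => h5 (h.mono ?_)
      calc (t.den : ℝ) ^ A ≤ (t.den : ℝ) ^ (max A 0) := Real.rpow_le_rpow_of_exponent_le hd1 (le_max_left _ _)
        _ ≤ T ^ (max A 0) := Real.rpow_le_rpow (by linarith) (h6.trans hTX) (le_max_right _ _)
    unfold Holds Rohrlich at h7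
    push Not at h7
    obtain ⟨α, h8, h9, h10⟩ := h7
    exact ⟨fun _ => (hY1 _).2 ⟨h3, h4, h6.trans hTX⟩, h10, α, h8, h9⟩
  have hinj : Set.InjOn (fun t : ℚ => (fun _ : Fin 1 => t))
      {t : ℚ | ((a ≤ (t : ℝ) ∧ (t : ℝ) ≤ b) ∧ ¬ Holds c x N B d ((t.den : ℝ) ^ A) t) ∧ (t.den : ℝ) ≤ X} :=
    fun t _ t' _ h => congrFun h 0
  refine ⟨Set.Finite.of_injOn hmap hinj h1, ?_⟩
  have h3 := Set.ncard_le_ncard_of_injOn _ hmap hinj h1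
  calc (({t : ℚ | ((a ≤ (t : ℝ) ∧ (t : ℝ) ≤ b) ∧ ¬ Holds c x N B d ((t.den : ℝ) ^ A) t) ∧ (t.den : ℝ) ≤ X}.ncard : ℕ) : ℝ)
      ≤ (((Exceptional c x (fun _ => (0 : Fin 1)) N B d (T ^ (max A 0)) Y).ncard : ℕ) : ℝ) := by exact_mod_cast h3
    _ ≤ C * T ^ ε := by simpa using h2
    _ ≤ |C| * T ^ ε := mul_le_mul_of_nonneg_right (le_abs_self C) (by positivity)
    _ = |C| * T₁ ^ ε * X ^ ε := by
        rw [hT, Real.mul_rpow (by linarith) (by linarith)]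
        ring

/-- the same for the denominators -/
theorem count_den {r : ℕ} (c : Fin r → ℚ) (hc : ∀ i, c i ≠ 0) (x : Fin r → ℚ) (a b : ℝ)
    (hpole : ∀ i (s : ℝ), a ≤ s → s ≤ b → ∀ k : ℕ, (c i : ℝ) * s + x i ≠ -k)
    (N B d : ℕ) (hN : 0 < N) (A ε : ℝ) (hε : 0 < ε) :
    ∃ C : ℝ, ∀ X : ℝ, 1 ≤ X →
      {q : ℕ | (True ∧ ¬ EveryNumerator c x a b N B d A q) ∧ (q : ℝ) ≤ X}.Finite ∧
      ({q : ℕ | (True ∧ ¬ EveryNumerator c x a b N B d A q) ∧ (q : ℝ) ≤ X}.ncard : ℝ) ≤ C * X ^ ε := by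
  obtain ⟨C, hC⟩ := count c hc x a b hpole N B d hN A ε hε
  refine ⟨C, fun X hX => ?_⟩
  obtain ⟨h1, h2⟩ := hC X hX
  have hsub : {q : ℕ | (True ∧ ¬ EveryNumerator c x a b N B d A q) ∧ (q : ℝ) ≤ X} ⊆
      Rat.den '' {t : ℚ | ((a ≤ (t : ℝ) ∧ (t : ℝ) ≤ b) ∧ ¬ Holds c x N B d ((t.den : ℝ) ^ A) t) ∧ (t.den : ℝ) ≤ X} := by
    rintro q ⟨⟨-, h3⟩, h4⟩
    unfold EveryNumerator at h3
    push Not at h3
    obtain ⟨t, rfl, h5, h6, h7⟩ := h3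
    exact ⟨t, ⟨⟨⟨h5, h6⟩, h7⟩, h4⟩, rfl⟩
  refine ⟨(h1.image _).subset hsub, le_trans ?_ h2⟩
  exact_mod_cast (Set.ncard_le_ncard hsub (h1.image _)).trans (Set.ncard_image_le h1)

end Pool.Agent.L7h11.RO
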